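import Mathlib

/-!
# Stabilization of the coefficients of the `rb` polynomial on 1221-avoiding RGFs

For `n ≥ 2 k + 3` every RGF of length `n` which avoids 1221 and has `rb = k` ends with two equal
letters, and repeating the last letter does not change `rb`.
-/

set_option autoImplicit false

namespace Pool.Agent.Results.MP_3ac9ea_co.Stabilization

open Finset

variable {n : ℕ}

/-- Restricted growth functions of length `n`, the letters are indexed by `Fin n`: positive integers,
the first letter is `1`, and every later letter is at most `1 +` the maximum of the letters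
before it. -/
def IsRGF (w : Fin n → ℕ) : Prop :=
  (∀ i, 1 ≤ w i) ∧ ∀ i : Fin n, ((i : ℕ) = 0 → w i = 1) ∧ ((i : ℕ) ≠ 0 → ∃ j < i, w i ≤ 1 + w j)

/-- `w` contains the pattern 1221. -/
def Contains1221 (w : Fin n → ℕ) : Prop :=
  ∃ a b c d : Fin n, a < b ∧ b < c ∧ c < d ∧ w a = w d ∧ w b = w c ∧ w a < w b

open Classical in
/-- `R_n(1221)`: the restricted growth functions of length `n` which avoid 1221 (their letters are
at most `n`, see `mem_R`). -/
noncomputable def R (n : ℕ) : Finset (Fin n → ℕ) :=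
  (Fintype.piFinset fun _ => range (n + 1)).filter fun w => IsRGF w ∧ ¬ Contains1221 w

/-- the number of distinct letters `x > w_j` which occur after the position `j` -/
def rbAt (w : Fin n → ℕ) (j : Fin n) : ℕ := ((univ.filter fun i => j < i ∧ w j < w i).image w).card

/-- the statistic `rb` -/
def rb (w : Fin n → ℕ) : ℕ := ∑ j, rbAt w j

/-- the polynomial `RB_n(1221; q)` -/
noncomputable def RB (n : ℕ) : Polynomial ℕ := ∑ w ∈ R n, Polynomial.X ^ rb w

lemma IsRGF.le_succ {w : Fin n → ℕ} (hw : IsRGF w) : ∀ i : Fin n, w i ≤ i + 1 := by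
  intro i
  induction i using WellFoundedLT.induction with
  | ind i ih =>
    by_cases h : (i : ℕ) = 0
    · rw [(hw.2 i).1 h]
      omega
    · obtain ⟨j, hj, hle⟩ := (hw.2 i).2 h
      have h1 := ih j hj
      have h2 : (j : ℕ) < i := hj
      omega

lemma mem_R {w : Fin n → ℕ} : w ∈ R n ↔ IsRGF w ∧ ¬ Contains1221 w := by
  classical
  unfold R
  rw [mem_filter, Fintype.mem_piFinset]
  constructor
  · exact fun h => h.2
  · intro h
    refine ⟨fun i => ?_, h⟩
    rw [mem_range]
    have h1 := h.1.le_succ i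
    have := i.2
    omega

/-- all smaller letters occur before -/
lemma IsRGF.exists_eq {w : Fin n → ℕ} (hw : IsRGF w) : ∀ i : Fin n, ∀ a, 1 ≤ a → a ≤ w i →
    ∃ j ≤ i, w j = a := by
  intro i
  induction i using WellFoundedLT.induction with
  | ind i ih =>
    intro a ha hai
    rcases eq_or_lt_of_le hai with h | h
    · exact ⟨i, le_rfl, h.symm⟩
    · have h0 : (i : ℕ) ≠ 0 := by
        intro h0
        rw [(hw.2 i).1 h0] at h
        omega
      obtain ⟨j, hj, hle⟩ := (hw.2 i).2 h0
      obtain ⟨l, hl, hl2⟩ := ih j hj a ha (by omega)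
      exact ⟨l, hl.trans hj.le, hl2⟩

lemma IsRGF.exists_lt {w : Fin n → ℕ} (hw : IsRGF w) {i : Fin n} {a : ℕ} (ha : 1 ≤ a)
    (hai : a < w i) : ∃ j < i, w j = a := by
  obtain ⟨j, hj, hja⟩ := hw.exists_eq i a ha hai.le
  refine ⟨j, lt_of_le_of_ne hj ?_, hja⟩
  rintro rfl
  omega

lemma rbAt_eq_zero {w : Fin n → ℕ} {j : Fin n} : rbAt w j = 0 ↔ ∀ i, j < i → w i ≤ w j := by
  unfold rbAt
  rw [card_eq_zero, image_eq_empty, filter_eq_empty_iff]
  constructor
  · intro h i hi
    by_contra hlt
    exact h (mem_univ i) ⟨hi, not_le.1 hlt⟩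
  · rintro h i - ⟨h1, h2⟩
    exact absurd (h i h1) (not_le.2 h2)

lemma tail_const {w : Fin n → ℕ} (hw : IsRGF w) (h : ¬ Contains1221 w) {i j : Fin n} (hij : i < j)
    (hi : rbAt w i = 0) (he : w i = w j) (l : Fin n) (hl : j ≤ l) : w l = w j := by
  rcases eq_or_lt_of_le hl with rfl | hl
  · rfl
  have h1 : w l ≤ w i := rbAt_eq_zero.1 hi l (hij.trans hl)
  rcases eq_or_lt_of_le h1 with h2 | h2
  · rw [h2, he]
  · exfalso
    obtain ⟨a, ha, hae⟩ := hw.exists_lt (hw.1 l) h2
    exact h ⟨a, i, j, l, ha, hij, hl, hae, he, by rw [hae]; exact h2⟩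

/-- for large `n` the last two letters agree -/
lemma last_eq {m : ℕ} {w : Fin (m + 2) → ℕ} (hw : IsRGF w) (h : ¬ Contains1221 w)
    (hm : 2 * rb w + 3 ≤ m + 2) : w (Fin.last (m + 1)) = w (Fin.castSucc (Fin.last m)) := by
  classical
  by_contra hne
  set Y := univ.filter fun j => rbAt w j ≠ 0 with hY
  set Z := univ.filter fun j => rbAt w j = 0 with hZ
  have hYk : Y.card ≤ rb w := by
    unfold rb
    calc Y.card = ∑ j ∈ Y, 1 := by simp
      _ ≤ ∑ j ∈ Y, rbAt w j := by
        apply sum_le_sum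
        intro j hj
        rw [hY, mem_filter] at hj
        omega
      _ ≤ ∑ j, rbAt w j := sum_le_sum_of_subset (subset_univ _)
  have hYZ : Y.card + Z.card = m + 2 := by
    have h1 := card_filter_add_card_filter_not (s := (univ : Finset (Fin (m + 2))))
      (fun j => rbAt w j = 0)
    rw [card_univ, Fintype.card_fin] at h1
    have h2 : (univ.filter fun j => ¬ rbAt w j = 0) = Y := rfl
    rw [h2] at h1
    change Z.card + Y.card = m + 2 at h1
    omega
  -- the maximum letter
  obtain ⟨p, -, hp⟩ := exists_max_image (univ : Finset (Fin (m + 2))) w ⟨0, mem_univ _⟩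
  have hM : w p ≤ Y.card + 1 := by
    have h1 : Finset.Ico 1 (w p) ⊆ Y.image w := by
      intro a ha
      rw [mem_Ico] at ha
      obtain ⟨j, hj, hja⟩ := hw.exists_lt ha.1 ha.2
      rw [mem_image]
      refine ⟨j, ?_, hja⟩
      rw [hY, mem_filter]
      refine ⟨mem_univ _, fun h0 => ?_⟩
      have := rbAt_eq_zero.1 h0 p hj
      omega
    have h2 := (card_le_card h1).trans card_image_le
    rw [Nat.card_Ico] at h2
    omega
  have hinj : Set.InjOn w (Z.erase (Fin.last (m + 1)) : Finset (Fin (m + 2))) := by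
    have key : ∀ i j : Fin (m + 2), i < j → rbAt w i = 0 → j ≠ Fin.last (m + 1) → w i ≠ w j := by
      intro i j hij hi hj he
      apply hne
      have hjl : j ≤ Fin.castSucc (Fin.last m) := by
        rw [Fin.le_def]
        have h1 : (j : ℕ) ≠ m + 1 := fun h' => hj (Fin.ext h')
        have h2 := j.2
        simp only [Fin.val_castSucc, Fin.val_last]
        omega
      rw [tail_const hw h hij hi he _ (Fin.le_last j), tail_const hw h hij hi he _ hjl]
    intro i hi j hj he
    rw [mem_coe, mem_erase, hZ, mem_filter] at hi hj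
    rcases lt_trichotomy i j with h1 | h1 | h1
    · exact absurd he (key i j h1 hi.2.2 hj.1)
    · exact h1
    · exact absurd he.symm (key j i h1 hj.2.2 hi.1)
  have hZc : (Z.erase (Fin.last (m + 1))).card ≤ w p := by
    have h1 := card_image_of_injOn hinj
    rw [← h1]
    have h2 : (Z.erase (Fin.last (m + 1))).image w ⊆ Icc 1 (w p) := by
      intro a ha
      rw [mem_image] at ha
      obtain ⟨i, -, rfl⟩ := ha
      rw [mem_Icc]
      exact ⟨hw.1 i, hp i (mem_univ _)⟩
    have h3 := card_le_card h2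
    rw [Nat.card_Icc] at h3
    omega
  have hZe : Z.card ≤ (Z.erase (Fin.last (m + 1))).card + 1 := by
    have := pred_card_le_card_erase (s := Z) (a := Fin.last (m + 1))
    omega
  omega

/-- repeat the last letter -/
def ext {m : ℕ} (w : Fin (m + 1) → ℕ) : Fin (m + 2) → ℕ :=
  Fin.snoc (α := fun _ => ℕ) w (w (Fin.last m))

lemma ext_castSucc {m : ℕ} (w : Fin (m + 1) → ℕ) (i : Fin (m + 1)) : ext w i.castSucc = w i := by
  unfold ext
  exact Fin.snoc_castSucc (α := fun _ => ℕ) _ _ _

lemma ext_last {m : ℕ} (w : Fin (m + 1) → ℕ) : ext w (Fin.last (m + 1)) = w (Fin.last m) := by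
  unfold ext
  exact Fin.snoc_last (α := fun _ => ℕ) _ _

lemma ext_rgf {m : ℕ} (w : Fin (m + 1) → ℕ) : IsRGF (ext w) ↔ IsRGF w := by
  constructor
  · intro h
    refine ⟨fun i => ?_, fun i => ⟨fun h0 => ?_, fun h0 => ?_⟩⟩
    · have := h.1 i.castSucc
      rwa [ext_castSucc] at this
    · have := (h.2 i.castSucc).1 h0
      rwa [ext_castSucc] at this
    · obtain ⟨j, hj, hle⟩ := (h.2 i.castSucc).2 h0
      have hj1 : (j : ℕ) < i := hj
      have hj2 : (j : ℕ) < m + 1 := by have := i.2; omega
      have e : j = Fin.castSucc ⟨j, hj2⟩ := Fin.ext rfl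
      rw [e, ext_castSucc, ext_castSucc] at hle
      exact ⟨⟨j, hj2⟩, hj1, hle⟩
  · intro h
    refine ⟨fun i => ?_, fun i => ⟨fun h0 => ?_, fun h0 => ?_⟩⟩
    · induction i using Fin.lastCases with
      | last => rw [ext_last]; exact h.1 _
      | cast i => rw [ext_castSucc]; exact h.1 _
    · induction i using Fin.lastCases with
      | last => simp at h0
      | cast i => rw [ext_castSucc]; exact (h.2 i).1 h0
    · induction i using Fin.lastCases with
      | last =>
        refine ⟨Fin.castSucc (Fin.last m), Fin.castSucc_lt_last _, ?_⟩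
        rw [ext_last, ext_castSucc]
        omega
      | cast i =>
        obtain ⟨j, hj, hle⟩ := (h.2 i).2 h0
        refine ⟨j.castSucc, by simpa using hj, ?_⟩
        rw [ext_castSucc, ext_castSucc]
        exact hle

lemma ext_contains {m : ℕ} (w : Fin (m + 1) → ℕ) : Contains1221 (ext w) ↔ Contains1221 w := by
  constructor
  · rintro ⟨a, b, c, d, hab, hbc, hcd, h1, h2, h3⟩
    have hc : (c : ℕ) < m + 1 := by
      have h4 : (c : ℕ) < d := hcd
      have := d.2
      omega
    have hb : (b : ℕ) < m + 1 := by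
      have h4 : (b : ℕ) < c := hbc
      omega
    have ha : (a : ℕ) < m + 1 := by
      have h4 : (a : ℕ) < b := hab
      omega
    have ea : a = Fin.castSucc ⟨a, ha⟩ := Fin.ext rfl
    have eb : b = Fin.castSucc ⟨b, hb⟩ := Fin.ext rfl
    have ec : c = Fin.castSucc ⟨c, hc⟩ := Fin.ext rfl
    rw [ea] at h1 h3
    rw [eb] at h2 h3
    rw [ec] at h2
    rw [ext_castSucc] at h1 h3
    rw [ext_castSucc] at h2 h3
    rw [ext_castSucc] at h2
    by_cases hd : (d : ℕ) < m + 1
    · have ed : d = Fin.castSucc ⟨d, hd⟩ := Fin.ext rfl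
      rw [ed, ext_castSucc] at h1
      exact ⟨⟨a, ha⟩, ⟨b, hb⟩, ⟨c, hc⟩, ⟨d, hd⟩, hab, hbc, hcd, h1, h2, h3⟩
    · have ed : d = Fin.last (m + 1) := Fin.ext (by have := d.2; simp only [Fin.val_last]; omega)
      rw [ed, ext_last] at h1
      refine ⟨⟨a, ha⟩, ⟨b, hb⟩, ⟨c, hc⟩, Fin.last m, hab, hbc, ?_, h1, h2, h3⟩
      rw [Fin.lt_def]
      change (c : ℕ) < m
      by_contra hcm
      have ecm : (⟨c, hc⟩ : Fin (m + 1)) = Fin.last m := Fin.ext (by simp only [Fin.val_last]; omega)
      rw [ecm] at h2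
      rw [h1, h2] at h3
      exact lt_irrefl _ h3
  · rintro ⟨a, b, c, d, hab, hbc, hcd, h1, h2, h3⟩
    refine ⟨a.castSucc, b.castSucc, c.castSucc, d.castSucc, by simpa using hab, by simpa using hbc,
      by simpa using hcd, ?_, ?_, ?_⟩ <;> simp only [ext_castSucc] <;> assumption

lemma ext_rb {m : ℕ} (w : Fin (m + 1) → ℕ) : rb (ext w) = rb w := by
  classical
  unfold rb
  rw [Fin.sum_univ_castSucc]
  have h1 : rbAt (ext w) (Fin.last (m + 1)) = 0 := by
    rw [rbAt_eq_zero]
    intro i hi
    exact absurd (Fin.le_last i) (not_le.2 hi)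
  rw [h1, add_zero]
  apply sum_congr rfl
  intro j _
  unfold rbAt
  congr 1
  ext x
  simp only [mem_image, mem_filter, mem_univ, true_and]
  constructor
  · rintro ⟨i, ⟨hji, hlt⟩, rfl⟩
    rw [ext_castSucc] at hlt
    induction i using Fin.lastCases with
    | last =>
      rw [ext_last] at hlt ⊢
      refine ⟨Fin.last m, ⟨?_, hlt⟩, rfl⟩
      refine lt_of_le_of_ne (Fin.le_last j) ?_
      rintro rfl
      exact lt_irrefl _ hlt
    | cast i =>
      rw [ext_castSucc] at hlt ⊢
      exact ⟨i, ⟨by simpa using hji, hlt⟩, rfl⟩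
  · rintro ⟨i, ⟨hji, hlt⟩, rfl⟩
    refine ⟨i.castSucc, ⟨by simpa using hji, ?_⟩, ?_⟩ <;> simp only [ext_castSucc]
    exact hlt

lemma coeff_RB (n k : ℕ) : (RB n).coeff k = ((R n).filter fun w => rb w = k).card := by
  classical
  unfold RB
  rw [Polynomial.finsetSum_coeff, card_filter]
  apply sum_congr rfl
  intro w _
  rw [Polynomial.coeff_X_pow]
  simp only [eq_comm]

lemma coeff_succ {n k : ℕ} (hn : 2 * k + 3 ≤ n) : (RB (n + 1)).coeff k = (RB n).coeff k := by
  classical
  obtain ⟨m, rfl⟩ : ∃ m, n = m + 1 := ⟨n - 1, by omega⟩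
  rw [coeff_RB, coeff_RB]
  symm
  refine card_bij (fun w _ => ext w) ?_ ?_ ?_
  · intro w hw
    rw [mem_filter, mem_R] at hw ⊢
    rw [ext_rgf, ext_contains, ext_rb]
    exact hw
  · intro w _ w' _ h
    funext i
    have := congrFun h i.castSucc
    rwa [ext_castSucc, ext_castSucc] at this
  · intro v hv
    rw [mem_filter, mem_R] at hv
    have hl := last_eq hv.1.1 hv.1.2 (by rw [hv.2]; omega)
    have he : ext (fun i => v i.castSucc) = v := by
      funext i
      induction i using Fin.lastCases with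
      | last => rw [ext_last, hl]
      | cast i => rw [ext_castSucc]
    refine ⟨fun i => v i.castSucc, ?_, he⟩
    rw [mem_filter, mem_R, ← ext_rgf, ← ext_contains, ← ext_rb, he]
    exact hv

/-- For every `k` the coefficient of `q^k` in `RB_n(1221; q)` does not depend on `n` for large `n`,
namely for `n ≥ 2 k + 3`. -/
theorem result : ∀ k : ℕ, ∃ N : ℕ, ∀ n, N ≤ n → (RB n).coeff k = (RB N).coeff k := by
  intro k
  refine ⟨2 * k + 3, fun n hn => ?_⟩
  induction n, hn using Nat.le_induction with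
  | base => rfl
  | succ n hn ih => rw [coeff_succ hn, ih]

end Pool.Agent.Results.MP_3ac9ea_co.Stabilization
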